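import Pool.Agent.H575.ES.Stm
import Pool.Graph.R_pool_sql_team_seeded_3997aac3.Q239.EL.CL

/-! JOB REP of project ES (helper575): integral representatives of the classes modulo squares. -/

set_option autoImplicit false

namespace Pool.Agent.H428.ES

open Polynomial NumberField IsDedekindDomain Finset
open Pool.Agent.Q51.EL (Abv Par)
open Pool.Agent.Q161.ESN
open Pool.Agent.H575.ES

section
variable {F : Type} [Field F] [NumberField F]

lemma fin_odd {D : F} (_hD : D ≠ 0) :
    {v : HeightOneSpectrum (𝓞 F) | Par v D 1}.Finite := by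
  have h1 := HeightOneSpectrum.Support.finite (𝓞 F) D
  have h2 := HeightOneSpectrum.Support.finite (𝓞 F) D⁻¹
  refine (h1.union h2).subset ?_
  intro v hv
  obtain ⟨k, hk⟩ := hv
  have hne : v.valuation F D ≠ 1 := by
    rw [hk, ← WithZero.exp_zero]
    intro h
    have := WithZero.exp_injective h
    omega
  rcases lt_or_gt_of_ne hne with h | h
  · right
    have hpos : v.valuation F D ≠ 0 := by rw [hk]; exact WithZero.exp_ne_zero
    change 1 < v.valuation F D⁻¹
    rw [map_inv₀]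
    exact (one_lt_inv₀ (zero_lt_iff.mpr hpos)).mpr h
  · left
    exact h

lemma par_even {D : F} (hD : D ≠ 0) (v : HeightOneSpectrum (𝓞 F)) (h : ¬ Par v D 1) :
    Par v D 0 := by
  have hne : v.valuation F D ≠ 0 := (Valuation.ne_zero_iff _).mpr hD
  obtain ⟨m, hm⟩ : ∃ m : ℤ, v.valuation F D = WithZero.exp m :=
    ⟨WithZero.log (v.valuation F D), (WithZero.exp_log hne).symm⟩
  rcases Int.even_or_odd' m with ⟨k, rfl | rfl⟩
  · exact ⟨k, by rw [hm]; congr 1; ring⟩
  · exact (h ⟨k, by rw [hm]; congr 1; ring⟩).elim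

end

theorem rep : S_REP := by
  classical
  intro F _ _
  obtain ⟨B, C, hB, hC, H⟩ := Pool.Agent.Q239.EL.cl F
  refine ⟨B, C, hB, hC, fun D hD => ?_⟩
  have hfin := fin_odd (F := F) hD
  obtain ⟨η, α, hη, hα, hval, hnorm⟩ := H D hfin.toFinset hD (fun v _ => ⟨fun h => by
    simpa using hfin.mem_toFinset.mp h, fun h => par_even hD v (fun h' => h (hfin.mem_toFinset.mpr h'))⟩)
  have hα0 : α ≠ 0 := by
    rintro rfl
    have : D * η ^ 2 = 0 := by rw [← hα]; simp
    exact mul_ne_zero hD (pow_ne_zero 2 hη) this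
  refine ⟨α, η, hη, hα, ?_, ?_⟩
  · intro B' hBB
    refine ⟨hα0, fun l hl hlB v hv => ?_⟩
    have hBv : (B : 𝓞 F) ∉ v.asIdeal := by
      intro hBv
      have hcop : Nat.Coprime l B := by
        rw [Nat.Prime.coprime_iff_not_dvd hl]
        exact fun h => hlB (h.trans hBB)
      have h1 : (IsCoprime (l : ℤ) (B : ℤ)) := Nat.isCoprime_iff_coprime.mpr hcop
      obtain ⟨a, b, hab⟩ := h1
      have h2 : ((a : ℤ) : 𝓞 F) * (l : 𝓞 F) + ((b : ℤ) : 𝓞 F) * (B : 𝓞 F) = 1 := by
        exact_mod_cast congrArg (Int.cast : ℤ → 𝓞 F) hab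
      have h3 : (1 : 𝓞 F) ∈ v.asIdeal := by
        rw [← h2]
        exact Ideal.add_mem _ (Ideal.mul_mem_left _ _ hv) (Ideal.mul_mem_left _ _ hBv)
      exact v.isPrime.ne_top ((Ideal.eq_top_iff_one _).mpr h3)
    by_cases hvS : v ∈ hfin.toFinset
    · exact Or.inr ((hval v hBv).1 hvS)
    · exact Or.inl ((hval v hBv).2 hvS)
  · refine hnorm.trans (le_of_eq ?_)
    congr 1
    have : Pool.Agent.H575.ES.cond D = ∏ v ∈ hfin.toFinset, Ideal.absNorm v.asIdeal := by
      unfold Pool.Agent.H575.ES.cond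
      exact finprod_mem_eq_finite_toFinset_prod (fun v : HeightOneSpectrum (𝓞 F) =>
        Ideal.absNorm v.asIdeal) hfin
    rw [this]
    push_cast
    rfl

end Pool.Agent.H428.ES
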